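import Pool.Agent.Lib.MP_a112e0_al.Imit

namespace Pool.Agent.Results.MP_a112e0_al.ConvexRetract
open Pool.Agent.Lib.MP_a112e0_al

/-- A group `G` acts on a median graph by automorphisms, a finite index subgroup `N` acts freely
and specially. Then every subgroup `H` preserving a nonempty convex set of vertices with finitely
many orbits is a virtual retract of `G` itself. -/
theorem result {G : Type*} {V : Type*} [Group G] [MulAction G V] (X : SimpleGraph V)
    (hX : IsMedianGraph X) (hG : ∀ (g : G) (u v : V), X.Adj u v → X.Adj (g • u) (g • v))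
    (N : Subgroup G) (hfi : N.FiniteIndex) (hN : ActsSpecially X N)
    (H : Subgroup G) (C : Set V) (hne : C.Nonempty) (hC : IsConvexIn X C)
    (hH : ∀ h ∈ H, ∀ c ∈ C, h • c ∈ C)
    (hF : ∃ F : Finset V, ∀ c ∈ C, ∃ h ∈ H, ∃ f ∈ F, c = h • f) :
    IsVirtualRetract H := by
  obtain ⟨F, hF⟩ := hF
  exact main hX hG hN hne hC hH F hF

end Pool.Agent.Results.MP_a112e0_al.ConvexRetract
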