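import Pool.Agent.Lib.LR28.Vert

namespace Pool.Agent.Results.MP_a112e0_al.FiniteEdgeCombination
open Pool.Agent.Lib.LR28 MulAction

/-- A group acts on a tree without inversion, with finitely many orbits of edges and finite edge
stabilisers. If the vertex stabilisers have (LR), and simultaneous conjugacy of elements of edge
stabilisers is separable in the vertex stabilisers, then the group has (LR). -/
theorem result {G : Type*} {V : Type*} [Group G] [MulAction G V] (T : SimpleGraph V)
    (hT : T.IsTree) (hG : ∀ (g : G) (u w : V), T.Adj u w → T.Adj (g • u) (g • w))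
    (hinv : ∀ (g : G) (u w : V), T.Adj u w → g • u = w → g • w ≠ u)
    (hfin : ∃ F : Finset (V × V), ∀ u w, T.Adj u w → ∃ g : G, (g • u, g • w) ∈ F)
    (hedge : ∀ u w, T.Adj u w → Finite ↥(stabilizer G u ⊓ stabilizer G w))
    (hLR : ∀ v : V, HasLR (stabilizer G v))
    (hsep : ∀ v w w' : V, T.Adj v w → T.Adj v w' →
      SepConj ((stabilizer G w).subgroupOf (stabilizer G v))
        ((stabilizer G w').subgroupOf (stabilizer G v))) :
    HasLR G :=
  combination hT hG hinv (fun u w h => Set.finite_coe_iff.1 (hedge u w h)) hfin hLR hsep

end Pool.Agent.Results.MP_a112e0_al.FiniteEdgeCombination
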