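import Pool.Agent.Lib.MP_a112e0_al.Final

namespace Pool.Agent.Results.MP_a112e0_al.QuasiconvexRetract
open Pool.Agent.Lib.MP_a112e0_al

/-- Let `G` be a hyperbolic group with a finite index subgroup `N` acting freely, cocompactly and
specially on a locally finite median graph. Then every quasiconvex subgroup of `G` is a virtual
retract of `G`. -/
theorem result {G : Type*} [Group G] (S : Finset G) (hS : Subgroup.closure (S : Set G) = ⊤)
    (hyp : IsHyperbolicGraph (SimpleGraph.mulCayley (S : Set G)))
    (N : Subgroup G) (hfi : N.FiniteIndex) {V : Type*} [MulAction N V] (X : SimpleGraph V)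
    (hX : IsMedianGraph X) (hlf : ∀ v, (X.neighborSet v).Finite)
    (hact : ∀ (n : N) (u v : V), X.Adj u v → X.Adj (n • u) (n • v))
    (hco : ∃ F : Finset V, ∀ v, ∃ n : N, ∃ x ∈ F, v = n • x)
    (hsp : ActsSpecially X (⊤ : Subgroup N))
    (H : Subgroup G) (hH : IsQuasiconvexIn (SimpleGraph.mulCayley (S : Set G)) (H : Set G)) :
    IsVirtualRetract H := by
  obtain ⟨F, hF⟩ := hco
  exact final S hS hyp hX hlf hact F hF hsp H hH

end Pool.Agent.Results.MP_a112e0_al.QuasiconvexRetract
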