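import Pool.Agent.Lib.LR28.Comb

namespace Pool.Agent.Results.MP_a112e0_al.TreeCriterion
open Pool.Agent.Lib.LR28 MulAction

/-- A group acting on a tree without inversion and with finite edge stabilisers has (LR) if and
only if every finitely generated subgroup that fixes a vertex is a virtual retract. -/
theorem result {G : Type*} {V : Type*} [Group G] [MulAction G V] (T : SimpleGraph V)
    (hT : T.IsTree) (hG : ∀ (g : G) (u w : V), T.Adj u w → T.Adj (g • u) (g • w))
    (hinv : ∀ (g : G) (u w : V), T.Adj u w → g • u = w → g • w ≠ u)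
    (hedge : ∀ u w, T.Adj u w → Finite ↥(stabilizer G u ⊓ stabilizer G w)) :
    HasLR G ↔ ∀ (v : V) (B : Subgroup G), B.FG → B ≤ stabilizer G v → IsVirtualRetract B :=
  ⟨fun h _ B hB _ => h B hB,
    criterion hT hG hinv fun u w h => Set.finite_coe_iff.1 (hedge u w h)⟩

end Pool.Agent.Results.MP_a112e0_al.TreeCriterion
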